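import Pool.Agent.Helper93.WC.All

/-!
# MP_e74dc5_nt: exceptional pairs (prime, layer) in one 2-adic class

`relUnits n` is the group `RE_n^+` of relative units of `𝔹_n = ℚ(X_n)`, `X_n = 2 cos (2π/2^(n+2))`,
and `cycUnits n` is the group generated by `-1` and the conjugates of `ε_n = (X_n + 1)/(X_n - 1)`
(both inside `ℝˣ`).
For every `t` there are at most `3 t^2 2^t` pairs `(l, n)`, `l` an odd prime with `2^t` exactly
dividing `l^2 - 1` and `n ≥ 1`, such that `RE_n^+ / ⟨-1, ε_n⟩` has an element of order `l`.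
-/

set_option autoImplicit false

noncomputable section

namespace Pool.Agent.Results.MP_e74dc5_nt.ClassPairs

open Helper62.Weber Pool.Agent.Helper93.WC

/-- at most `3 t^2 2^t` exceptional pairs in the class `t` -/
theorem result (t : ℕ) :
    {p : ℕ × ℕ | p.1.Prime ∧ p.1 ≠ 2 ∧ 2 ^ t ∣ p.1 ^ 2 - 1 ∧ ¬ 2 ^ (t + 1) ∣ p.1 ^ 2 - 1 ∧
      1 ≤ p.2 ∧ ∃ q : relUnits p.2 ⧸ (cycUnits p.2).subgroupOf (relUnits p.2),
        orderOf q = p.1}.Finite ∧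
    {p : ℕ × ℕ | p.1.Prime ∧ p.1 ≠ 2 ∧ 2 ^ t ∣ p.1 ^ 2 - 1 ∧ ¬ 2 ^ (t + 1) ∣ p.1 ^ 2 - 1 ∧
      1 ≤ p.2 ∧ ∃ q : relUnits p.2 ⧸ (cycUnits p.2).subgroupOf (relUnits p.2),
        orderOf q = p.1}.ncard ≤ 3 * t ^ 2 * 2 ^ t := by
  refine finite_ncard_le fun S hS => ?_
  rcases lt_or_ge t 3 with ht | ht
  · have hempty : S = ∅ := by
      rw [Finset.eq_empty_iff_forall_notMem]
      intro p hp
      obtain ⟨h1, h2, h3, h4, -⟩ := hS (Finset.mem_coe.2 hp)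
      apply h4
      obtain ⟨k, hk⟩ := h1.odd_of_ne_two h2
      have h5 : p.1 ^ 2 - 1 = 4 * (k * (k + 1)) := by
        rw [hk]
        have : (2 * k + 1) ^ 2 = 4 * (k * (k + 1)) + 1 := by ring
        omega
      obtain ⟨j, hj⟩ : 2 ∣ k * (k + 1) := (Nat.even_mul_succ_self k).two_dvd
      rw [h5, hj]
      have h6 : 2 ^ (t + 1) ∣ 2 ^ 3 := pow_dvd_pow 2 (by omega)
      refine h6.trans ⟨j, by ring⟩
    rw [hempty, Finset.card_empty]
    exact Nat.zero_le _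
  · refine pairs cCN1' cCN2' wc_main t ht S fun p hp => ?_
    obtain ⟨h1, h2, h3, h4, h5, q, hq⟩ := hS (Finset.mem_coe.2 hp)
    exact ⟨h1, h1.odd_of_ne_two h2, (cls_iff h1.one_lt).2 ⟨h3, h4⟩, h5, bad_of_order h5 h1 q hq⟩

end Pool.Agent.Results.MP_e74dc5_nt.ClassPairs
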