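import Pool.Agent.Helper62.Weber.Stmt

/-!
# MP_e74dc5_nt: the exceptional primes of the cyclotomic `ℤ_2`-tower are few

`relUnits n` is the group `RE_n^+` of relative units of `𝔹_n = ℚ(X_n)`, `X_n = 2 cos (2π/2^(n+2))`,
and `cycUnits n` is the group generated by `-1` and the conjugates of `ε_n = (X_n + 1)/(X_n - 1)`
(both inside `ℝˣ`).
Up to `x` there are at most `54 √(x log x)` primes `l` such that, for some `n ≥ 1`, the quotient
`RE_n^+ / ⟨-1, ε_n⟩` has an element of order `l`.
-/

set_option autoImplicit false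

noncomputable section

namespace Pool.Agent.Results.MP_e74dc5_nt.FewExceptional

open Helper62.Weber

/-- at most `54 √(x log x)` primes up to `x` are exceptional -/
theorem result (x : ℕ) (hx : 2 ≤ x) :
    ({l : ℕ | l.Prime ∧ l ≤ x ∧ ∃ n : ℕ, 1 ≤ n ∧
      ∃ q : relUnits n ⧸ (cycUnits n).subgroupOf (relUnits n), orderOf q = l}.ncard : ℝ) ≤
      54 * Real.sqrt (x * Real.log x) := by
  set A : Set ℕ := {l : ℕ | l.Prime ∧ l ≤ x ∧ ∃ n : ℕ, 1 ≤ n ∧
      ∃ q : relUnits n ⧸ (cycUnits n).subgroupOf (relUnits n), orderOf q = l} with hA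
  have hfin : A.Finite := (Set.finite_Iic x).subset (fun l hl => hl.2.1)
  rw [Set.ncard_eq_toFinset_card A hfin]
  apply count_real hx
  intro l hl
  rw [Set.Finite.mem_toFinset] at hl
  obtain ⟨hp, hlx, n, hn, q, hq⟩ := hl
  refine ⟨hp, hlx, n, hn, ?_⟩
  induction q using QuotientGroup.induction_on with
  | H u =>
    refine bad_of_real hn u.2 (fun hu => ?_) ?_
    · have h1 : ((u : relUnits n) : relUnits n ⧸ (cycUnits n).subgroupOf (relUnits n)) = 1 := by
        rw [QuotientGroup.eq_one_iff, Subgroup.mem_subgroupOf]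
        exact hu
      rw [h1, orderOf_one] at hq
      exact hp.one_lt.ne hq
    · have h1 : ((u : relUnits n) : relUnits n ⧸ (cycUnits n).subgroupOf (relUnits n)) ^ l = 1 := by
        rw [← hq, pow_orderOf_eq_one]
      rw [← QuotientGroup.mk_pow, QuotientGroup.eq_one_iff, Subgroup.mem_subgroupOf] at h1
      exact h1

end Pool.Agent.Results.MP_e74dc5_nt.FewExceptional
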