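import Pool.Agent.Helper69.RF.TopB
import Pool.Agent.Helper24.RF.M_HGR
import Pool.Agent.Helper29.RF.M_MAH
import Pool.Agent.Helper47.RF.M_KRO
import Pool.Agent.Helper78.RF.M_UNT
import Pool.Agent.Helper81.RF.M_NRM
import Pool.Agent.Helper82.RF.M_PSI
import Pool.Agent.Helper82.RF.M_RAT
import Pool.Agent.Helper99.RF.M_ASC

/-!
# MP_e74dc5_nt: rational families of relative units

`relUnits n` is the group `RE_n^+` of relative units of `𝔹_n = ℚ(X_n)`, `X_n = XR n =
2 cos (2π/2^(n+2))`, and `cycUnits n` is the group `⟨-1, ε_n⟩_(G_n)`, both inside `ℝˣ`.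

Let `g, h` be polynomials with integer coefficients, `h ≠ 0`.  Either `g(X_n)/h(X_n)` lies in
`⟨-1, ε_n⟩_(G_n)` for all large `n`, or for all large `n` at most `deg g` of the integers `m` in
`[n, n^2]` are such that `g(X_m)/h(X_m)` lies in `RE_m^+`.
-/

set_option autoImplicit false

noncomputable section

namespace Pool.Agent.Results.MP_e74dc5_nt.RationalFamilies

open Polynomial Helper62.Weber Pool.Agent.Helper69.RF

/-- a rational function of `X_n` gives no counterexample, except possibly for a very sparse set of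
layers -/
theorem result (g h : ℤ[X]) (hh : h ≠ 0) :
    (∃ N : ℕ, ∀ n ≥ N, ∃ u ∈ cycUnits n, (u : ℝ) = aeval (XR n) g / aeval (XR n) h) ∨
    (∃ N : ℕ, ∀ n ≥ N, {m : ℕ | n ≤ m ∧ m ≤ n ^ 2 ∧
      ∃ u ∈ relUnits m, (u : ℝ) = aeval (XR m) g / aeval (XR m) h}.ncard ≤ g.natDegree) :=
  topB Pool.Agent.Helper82.RF.cRAT Pool.Agent.Helper99.RF.cASC Pool.Agent.Helper78.RF.cUNT
    Pool.Agent.Helper82.RF.cPSI Pool.Agent.Helper81.RF.cNRM Pool.Agent.Helper29.RF.cMAH
    Pool.Agent.Helper47.RF.cKRO Pool.Agent.Helper24.RF.cHGR g h hh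

end Pool.Agent.Results.MP_e74dc5_nt.RationalFamilies
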