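import Pool.Agent.Helper69.RF.TopA
import Pool.Agent.Helper2.RF.M_DET
import Pool.Agent.Helper2.RF.M_GRD
import Pool.Agent.Helper13.RF.M_COO
import Pool.Agent.Helper44.RF.M_PAR
import Pool.Agent.Helper62.RF.M_EVN
import Pool.Agent.Helper99.RF.M_ASC

/-!
# MP_e74dc5_nt: the relative units grow with the layer

`relUnits n` is the group `RE_n^+` of relative units of `𝔹_n = ℚ(X_n)`, `X_n = XR n =
2 cos (2π/2^(n+2))`, inside `ℝˣ`.  The conjugates of `X_n` are the numbers
`2 cos (2π(2i+1)/2^(n+2))`, `i < 2^n`, so the conjugates of `p(X_n)`, `p ∈ ℚ[X]`, are the values of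
`p` at these numbers.

(1) In the integral basis `1, 2 cos (2πk/2^(n+2))` (`0 < k < 2^n`) the first coordinate of a
relative unit is odd, the others are even, and at least `(n+1)/2` of the others are not zero unless
the unit is `1` or `-1`.
(2) The mean of the squares of the conjugates of a relative unit other than `1, -1` is at least
`4n + 5`.
(3) For every `C` only finitely many elements of the union of all the groups `RE_n^+` have all
their conjugates in `[-C, C]`.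
-/

set_option autoImplicit false

noncomputable section

namespace Pool.Agent.Results.MP_e74dc5_nt.SquareGrowth

open Polynomial Helper62.Weber Pool.Agent.Helper69.RF

/-- relative units grow with the layer -/
theorem result :
    (∀ n : ℕ, 1 ≤ n → ∀ u ∈ relUnits n,
      ∃ a : ℕ → ℤ, Odd (a 0) ∧ (∀ k ∈ Finset.Ico 1 (2 ^ n), Even (a k)) ∧
        (u : ℝ) = a 0 + ∑ k ∈ Finset.Ico 1 (2 ^ n),
          (a k : ℝ) * (2 * Real.cos (2 * Real.pi * (k : ℝ) / 2 ^ (n + 2))) ∧
        (u ≠ 1 → u ≠ -1 →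
          n + 1 ≤ 2 * ((Finset.Ico 1 (2 ^ n)).filter (fun k => a k ≠ 0)).card)) ∧
    (∀ n : ℕ, 1 ≤ n → ∀ u ∈ relUnits n, u ≠ 1 → u ≠ -1 → ∀ p : ℚ[X], (u : ℝ) = aeval (XR n) p →
      (2 : ℝ) ^ n * (4 * n + 5) ≤ ∑ i ∈ Finset.range (2 ^ n),
        (aeval (2 * Real.cos (2 * Real.pi * ((2 * i + 1 : ℕ) : ℝ) / 2 ^ (n + 2))) p) ^ 2) ∧
    (∀ C : ℝ, {u : ℝˣ | ∃ n : ℕ, 1 ≤ n ∧ u ∈ relUnits n ∧
      ∃ p : ℚ[X], (u : ℝ) = aeval (XR n) p ∧ ∀ i < 2 ^ n,
        |aeval (2 * Real.cos (2 * Real.pi * ((2 * i + 1 : ℕ) : ℝ) / 2 ^ (n + 2))) p| ≤ C}.Finite) := by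
  have hDET := Pool.Agent.Helper2.RF.cDET
  have hGRD := Pool.Agent.Helper2.RF.cGRD
  have hCOO := Pool.Agent.Helper13.RF.cCOO
  have hPAR := Pool.Agent.Helper44.RF.cPAR
  have hASC := Pool.Agent.Helper99.RF.cASC
  have hEVN := Pool.Agent.Helper62.RF.cEVN
  refine ⟨?_, ?_, ?_⟩
  · intro n hn u hu
    exact coords hDET hGRD hCOO hPAR hASC hEVN hn hu
  · intro n hn u hu h1 h2 p hp
    exact topA hDET hGRD hCOO hPAR hASC hEVN hn hu h1 h2 hp
  · intro C
    obtain ⟨N, hN⟩ := exists_nat_ge (C ^ 2)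
    have hfin : ({1, -1} ∪ ⋃ n ∈ Set.Iic N, {u : ℝˣ | u ∈ relUnits n ∧
        ∃ p : ℚ[X], (u : ℝ) = aeval (XR n) p ∧
          ∀ i < 2 ^ n, |aeval (cR n (2 * i + 1)) p| ≤ C}).Finite := by
      apply Set.Finite.union (Set.toFinite _)
      exact (Set.finite_Iic N).biUnion (fun n _ => layer_fin hCOO hPAR n C)
    apply hfin.subset
    rintro u ⟨n, hn, hu, p, hp, hC⟩
    by_cases h1 : u = 1
    · left; left; exact h1
    by_cases h2 : u = -1
    · left; right; exact h2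
    right
    have h3 := topA hDET hGRD hCOO hPAR hASC hEVN hn hu h1 h2 hp
    have h4 : ∑ i ∈ Finset.range (2 ^ n), (aeval (cR n (2 * i + 1)) p) ^ 2 ≤
        (2 : ℝ) ^ n * C ^ 2 := by
      have h5 : ∀ i ∈ Finset.range (2 ^ n), (aeval (cR n (2 * i + 1)) p) ^ 2 ≤ C ^ 2 := by
        intro i hi
        have h6 : |aeval (cR n (2 * i + 1)) p| ≤ C := hC i (Finset.mem_range.1 hi)
        rw [← sq_abs]
        exact pow_le_pow_left₀ (abs_nonneg _) h6 2
      have h7 := Finset.sum_le_sum h5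
      rw [Finset.sum_const, Finset.card_range, nsmul_eq_mul] at h7
      exact_mod_cast h7
    have h8 := le_of_mul_le_mul_left (h3.trans h4) (by positivity)
    have h9 : n ≤ N := by
      have : (n : ℝ) ≤ N := by
        have : (0 : ℝ) ≤ n := Nat.cast_nonneg n
        linarith
      exact_mod_cast this
    rw [Set.mem_iUnion₂]
    exact ⟨n, h9, hu, p, hp, hC⟩

end Pool.Agent.Results.MP_e74dc5_nt.SquareGrowth
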